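import Pool.Agent.Run7.h37.NEG.CleanA

set_option autoImplicit false

/-! Piece CLEAN of the project of helper35 (MP_6c92e3_an): from the core to the rigidity
proposition. -/

namespace Run7.h37.NEG.Clean

open Finset Module Run7.h35 Run7.h35.NEG

/-! ### restriction to a set of columns -/

section restr

variable {r r' : ℕ} {τ : Fin r' → Fin r}

theorem sum_comp_le (hτ : Function.Injective τ) (f : Fin r → ℝ) (hf : ∀ j, 0 ≤ f j) :
    ∑ l, f (τ l) ≤ ∑ j, f j := by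
  classical
  rw [← sum_image (s := (univ : Finset (Fin r'))) (f := f) (g := τ) (fun a _ b _ h => hτ h)]
  exact sum_le_sum_of_subset_of_nonneg (subset_univ _) fun j _ _ => hf j

theorem mc_restr_le {T : Tower} (hτ : Function.Injective τ)
    (y : (s : ℕ) → Fin (T.n s) → Fin r → ℝ) (c : ℕ → Fin (2 ^ T.a) → Fin r → ℝ) :
    T.mc (fun s b l => y s b (τ l)) (fun s ν l => c s ν (τ l)) ≤ T.mc y c := by
  classical
  have h1 : ∀ (w : Fin r → ℝ) l, mixR (fun l j => if τ l = j then (1 : ℝ) else 0) w l = w (τ l) := by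
    intro w l
    simp [mixR]
  have hA : Contr (fun (l : Fin r') (j : Fin r) => if τ l = j then (1 : ℝ) else 0) := by
    intro w
    have : ∀ l, ∑ j, (if τ l = j then (1 : ℝ) else 0) * w j = w (τ l) := by
      intro l; simp
    simp only [this]
    exact sum_comp_le hτ (fun j => w j ^ 2) fun j => sq_nonneg _
  have h2 := mc_mix_le hA y c
  have e1 : (fun s (b : Fin (T.n s)) => mixR (fun (l : Fin r') (j : Fin r) =>
      if τ l = j then (1 : ℝ) else 0) (y s b)) = fun s b l => y s b (τ l) := by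
    funext s b l
    exact h1 _ _
  have e2 : (fun s (ν : Fin (2 ^ T.a)) => mixR (fun (l : Fin r') (j : Fin r) =>
      if τ l = j then (1 : ℝ) else 0) (c s ν)) = fun s ν l => c s ν (τ l) := by
    funext s b l
    exact h1 _ _
  rw [e1, e2] at h2
  exact h2

/-- extension by zero -/
def ext0 (τ : Fin r' → Fin r) (v : Fin r' → ℝ) (j : Fin r) : ℝ := ∑ l, if τ l = j then v l else 0

theorem sum_ext0 {E : Type} [AddCommGroup E] [Module ℝ E] (v : Fin r' → ℝ) (f : Fin r → E) :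
    ∑ j, ext0 τ v j • f j = ∑ l, v l • f (τ l) := by
  classical
  unfold ext0
  simp only [sum_smul]
  rw [sum_comm]
  refine sum_congr rfl fun l _ => ?_
  simp [ite_smul]

theorem ext0_sq (hτ : Function.Injective τ) (v : Fin r' → ℝ) :
    ∑ j, ext0 τ v j ^ 2 = ∑ l, v l ^ 2 := by
  have h1 : ∑ j, ext0 τ v j ^ 2 = ∑ j, ext0 τ v j • ext0 τ v j :=
    sum_congr rfl fun j _ => by rw [smul_eq_mul, pow_two]
  rw [h1, sum_ext0]
  refine sum_congr rfl fun l _ => ?_
  have : ext0 τ v (τ l) = v l := by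
    unfold ext0
    rw [sum_eq_single l]
    · simp
    · intro l' _ hl'
      rw [if_neg (fun h => hl' (hτ h))]
    · intro h; exact absurd (mem_univ l) h
  rw [this, smul_eq_mul, pow_two]

end restr

theorem sum_smul_sub_mix {r ω : ℕ} {v : Fin ω → Fin r → ℝ} {E : Type} [NormedAddCommGroup E]
    [NormedSpace ℝ E] (W : Fin r → ℝ) (z : Fin r → E) :
    ∑ j, W j • (z j + (-1 : ℝ) • mixE (PP v) z j) = ∑ j, (W j - mixR (PP v) W j) • z j := by
  have h1 : ∑ j, W j • (z j + (-1 : ℝ) • mixE (PP v) z j) =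
      ∑ j, W j • z j - ∑ j, W j • mixE (PP v) z j := by
    rw [← sum_sub_distrib]
    refine sum_congr rfl fun j _ => ?_
    rw [smul_add, neg_smul, one_smul, smul_neg, ← sub_eq_add_neg]
  have h2 : ∑ j, W j • mixE (PP v) z j = ∑ j, mixR (PP v) W j • z j := by
    unfold mixE mixR
    simp only [smul_sum, sum_smul]
    rw [sum_comm]
    refine sum_congr rfl fun t _ => sum_congr rfl fun j _ => ?_
    rw [smul_smul, PP_symm j t, mul_comm]
  rw [h1, h2, ← sum_sub_distrib]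
  exact sum_congr rfl fun j _ => (sub_smul _ _ _).symm

theorem main : S_CLEAN := by
  classical
  intro hcore C hC
  obtain ⟨Θ₀, hΘ₀, K₀, hK⟩ := hcore C hC
  refine ⟨10 * Θ₀ + 1, by linarith, max K₀ 1, ?_⟩
  intro K hK' top H δ hH hδ
  have hK₀ : K₀ ≤ K := le_trans (le_max_left _ _) hK'
  have hK1 : 1 ≤ K := le_trans (le_max_right _ _) hK'
  have hK1r : (1 : ℝ) ≤ K := by exact_mod_cast hK1
  have hH2 : 1 ≤ H ^ 2 := by nlinarith
  set M : ℝ := 4 * H ^ 2 * (10 * H ^ 2 + 1) / δ + 2 * (10 * H ^ 2 + 1) with hM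
  have hM0 : 0 ≤ 4 * H ^ 2 * (10 * H ^ 2 + 1) / δ := by positivity
  have hM1 : 1 ≤ M := by rw [hM]; linarith
  obtain ⟨δ₁, H₂, ε, hδ₁, hH₂, hε, hε1, hcoreC⟩ :=
    hK K hK₀ top H M (δ / 4) hH hM1 (by linarith)
  refine ⟨H₂, ε, hH₂, hε, hε1, ?_⟩
  intro C₀ hC₀
  obtain ⟨Γ₀, hcoreΓ⟩ := hcoreC C₀ hC₀
  set m0 : ℝ := min (1 / 2) (δ / 16) with hm0
  have hm0p : 0 < m0 := lt_min (by norm_num) (by linarith)
  obtain ⟨Γ₁, hΓ₁⟩ := exists_nat_gt (48 * (K : ℝ) ^ 4 * H ^ 4 / (δ₁ * m0))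
  refine ⟨max Γ₀ (max Γ₁ 2), ?_⟩
  intro g T hg hTK hTtop hT E _ _ _ X F hF i hi r hr hr4 z y c hz hrep hc0 hSG hdis κ hκ
  have hT₀ : T.OK H₂ ε C₀ g Γ₀ := { hT with base := le_trans (le_max_left _ _) hT.base }
  have hi' : i < T.top := by rw [hTtop]; exact hi
  -- sizes
  have ha2 : 2 ≤ T.a := le_trans (le_trans (le_max_right _ _) (le_max_right _ _)) hT.base
  have haΓ : Γ₁ ≤ T.a := le_trans (le_trans (le_max_left _ _) (le_max_right _ _)) hT.base
  have hkn : T.k i ≤ T.n i := by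
    rw [hT.n_eq i hi']
    exact Nat.le_self_pow (by norm_num) _
  have hak : T.a ≤ T.k i := hT.k_ge i
  have hk1 : 1 ≤ T.k i := by omega
  have hn2 : 2 ≤ T.n i := by omega
  have hk3n : T.k i ^ 3 ≤ T.n i := by
    rw [hT.n_eq i hi']
    exact Nat.pow_le_pow_right hk1 (by norm_num)
  have hnr : T.n i ≤ r := (Nat.le_self_pow (by norm_num) _).trans hr
  have hr1 : 1 ≤ r := by omega
  have hrr : (1 : ℝ) ≤ r := by exact_mod_cast hr1
  have hr0 : (0 : ℝ) < r := by linarith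
  have hn0 : (0 : ℝ) < T.n i := by exact_mod_cast (by omega : 0 < T.n i)
  -- `r k³ r ≤ k_{i+1}`
  have hrk : r * T.k i ^ 3 * r ≤ T.k (i + 1) := by
    refine le_trans ?_ hr4
    calc r * T.k i ^ 3 * r ≤ r * r * r := by
          apply Nat.mul_le_mul_right
          exact Nat.mul_le_mul_left _ (hk3n.trans hnr)
      _ ≤ r ^ 4 := by
          have : r * r * r = r ^ 3 := by ring
          rw [this]
          exact Nat.pow_le_pow_right hr1 (by norm_num)
  have hkk0 : 0 < T.k (i + 1) := lt_of_lt_of_le (by positivity) hrk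
  have hkkr : (0 : ℝ) < T.k (i + 1) := by exact_mod_cast hkk0
  have hrk' : ((r * T.k i ^ 3 : ℕ) : ℝ) * r ≤ T.k (i + 1) := by exact_mod_cast hrk
  -- the content
  have hu2 : ∀ t, ∑ ν, c i ν t ^ 2 ≤ H ^ 2 := fun t => (hSG t).2.2
  have hu3 : ∀ t, (univ.filter (fun ν => c i ν t ≠ 0)).card ≤ T.k i ^ 3 := fun t => (hSG t).2.1
  set α := ∑ t, ‖z t‖ ^ 2 with hα
  set β := T.mc y (T.above i c) with hβ
  have hα0 : 0 ≤ α := by positivity
  have hβ0 : 0 ≤ β := mc_nonneg _ _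
  have hκ0 : 0 ≤ κ := by
    have : 0 ≤ κ * r := le_trans (by positivity) hκ
    exact nonneg_of_mul_nonneg_left this hr0
  have hutot : ∑ t, ∑ ν, c i ν t ^ 2 ≤ r * H ^ 2 := by
    refine (sum_le_sum fun t _ => hu2 t).trans (le_of_eq ?_)
    simp
  by_cases hκH : H ^ 2 < κ
  · refine hutot.trans ?_
    have h1 : (r : ℝ) * H ^ 2 ≤ κ * r := by
      rw [mul_comm]
      exact mul_le_mul_of_nonneg_right hκH.le hr0.le
    have h2 : κ * r ≤ (10 * Θ₀ + 1) * (κ + δ) * r := by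
      apply mul_le_mul_of_nonneg_right _ hr0.le
      have h3 := mul_nonneg (zero_le_one.trans hΘ₀) (add_nonneg hκ0 hδ.le)
      linarith
    exact h1.trans h2
  push Not at hκH
  -- the maximal family
  let V₀ : Submodule ℝ (Fin r → ℝ) :=
    { carrier := {v | ∀ s ≤ i, X.lev s (∑ j, v j • z j) = 0}
      add_mem' := by
        intro v w hv hw s hs
        have : ∑ j, (v + w) j • z j = ∑ j, v j • z j + ∑ j, w j • z j := by
          rw [← sum_add_distrib]
          exact sum_congr rfl fun j _ => by rw [Pi.add_apply, add_smul]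
        rw [this, map_add, hv s hs, hw s hs, add_zero]
      zero_mem' := by
        intro s _
        simp
      smul_mem' := by
        intro a v hv s hs
        have : ∑ j, (a • v) j • z j = a • ∑ j, v j • z j := by
          rw [smul_sum]
          exact sum_congr rfl fun j _ => by rw [Pi.smul_apply, smul_eq_mul, mul_smul]
        rw [this, map_smul, hv s hs, smul_zero] }
  obtain ⟨ω, v, hv, hvV, hvq, hmax⟩ := exists_max V₀ (fun v => ‖∑ j, v j • z j‖ ^ 2)
    (by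
      intro a v
      have : ∑ j, (a • v) j • z j = a • ∑ j, v j • z j := by
        rw [smul_sum]
        exact sum_congr rfl fun j _ => by rw [Pi.smul_apply, smul_eq_mul, mul_smul]
      simp only [this, norm_smul, mul_pow]
      rw [Real.norm_eq_abs, sq_abs]) (δ₁ * r / (2 * T.n i))
  have hmem : ∀ w, w ∈ V₀ ↔ ∀ s ≤ i, X.lev s (∑ j, w j • z j) = 0 := fun w => Iff.rfl
  -- the size of the family
  have hrepv := rep_up X hrep hc0 v (fun e s hs => (hmem _).1 (hvV e) s hs)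
  have hsv := sum_norm_sq_le X hrepv
  have hmcv := mc_up hi' y c (contr_v hv)
  have hhs : hs (c i) ≤ r * H ^ 2 := by
    unfold hs
    rw [sum_comm]
    exact hutot
  have hhsv : hs (fun ν => mixR v (c i ν)) ≤ r * H ^ 2 := (hs_mix_le (contr_v hv) (c i)).trans hhs
  have hrhov := rho_mix_sq_le (c i) (T.k i ^ 3) hu3 v
  have hrhov' : rho (fun ν => mixR v (c i ν)) ^ 2 / (T.k (i + 1) : ℝ) ≤ H ^ 2 := by
    rw [div_le_iff₀ hkkr]
    refine hrhov.trans ?_
    calc ((r * T.k i ^ 3 : ℕ) : ℝ) * hs (fun ν => mixR v (c i ν))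
        ≤ ((r * T.k i ^ 3 : ℕ) : ℝ) * (r * H ^ 2) := by gcongr
      _ = (((r * T.k i ^ 3 : ℕ) : ℝ) * r) * H ^ 2 := by ring
      _ ≤ T.k (i + 1) * H ^ 2 := by gcongr
      _ = H ^ 2 * T.k (i + 1) := by ring
  have hKT : (T.K : ℝ) = K := by rw [hTK]
  have hωσ : (ω : ℝ) * (δ₁ * r / (2 * T.n i)) ≤ 6 * (K : ℝ) ^ 2 * H ^ 2 * r := by
    have h1 : (ω : ℝ) * (δ₁ * r / (2 * T.n i)) ≤ ∑ e, ‖mixE v z e‖ ^ 2 := by
      have : (ω : ℝ) * (δ₁ * r / (2 * T.n i)) = ∑ _e : Fin ω, (δ₁ * r / (2 * T.n i)) := by simp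
      rw [this]
      exact sum_le_sum fun e _ => (hvq e).le
    have h2 : β ≤ H ^ 2 * r := by
      have := mul_le_mul_of_nonneg_right hκH hr0.le
      linarith
    have h3 : (K : ℝ) ^ 2 * (hs (fun ν => mixR v (c i ν)) +
          rho (fun ν => mixR v (c i ν)) ^ 2 / (T.k (i + 1) : ℝ)) ≤ (K : ℝ) ^ 2 * (2 * H ^ 2 * r) := by
      apply mul_le_mul_of_nonneg_left _ (by positivity)
      have : H ^ 2 ≤ H ^ 2 * r := le_mul_of_one_le_right (sq_nonneg H) hrr
      linarith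
    have h4 : H ^ 2 * r ≤ (K : ℝ) ^ 2 * (H ^ 2 * r) := by
      have h5 : (1 : ℝ) ≤ (K : ℝ) ^ 2 := one_le_pow₀ hK1r
      have h6 : 0 ≤ H ^ 2 * r := by positivity
      exact le_mul_of_one_le_left h6 h5
    rw [hKT] at hmcv
    have h7 := h1.trans (hsv.trans hmcv)
    linarith
  have hω : (ω : ℝ) ≤ 12 * (K : ℝ) ^ 2 * H ^ 2 * T.n i / δ₁ := by
    rw [le_div_iff₀ hδ₁]
    have h1 : (ω : ℝ) * (δ₁ * r / (2 * T.n i)) = (ω * δ₁) * r / (2 * T.n i) := by ring
    rw [h1, div_le_iff₀ (by positivity)] at hωσ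
    have h2 : (ω * δ₁) * r ≤ (12 * (K : ℝ) ^ 2 * H ^ 2 * T.n i) * r := by linarith
    exact le_of_mul_le_mul_right h2 hr0
  -- the projection
  have hPV : ∀ j, (fun t => PP v j t) ∈ V₀ := by
    intro j
    have : (fun t => PP v j t) = ∑ e, v e j • v e := by
      funext t
      simp [PP, Finset.sum_apply]
    rw [this]
    exact Submodule.sum_mem _ fun e _ => V₀.smul_mem _ (hvV e)
  have hrepP := rep_up X hrep hc0 (PP v) (fun e s hs => (hmem _).1 (hPV e) s hs)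
  have hsP := sum_norm_sq_le X hrepP
  have hmcP := mc_up hi' y c (contr_PP hv)
  set mcP := T.mc (fun s b => mixR (PP v) (yU i y s b)) (fun s ν => mixR (PP v) (cU T i c s ν))
    with hmcPdef
  set θ : ℝ := 4 * (K : ℝ) ^ 2 * H ^ 2 * ω with hθ
  have hhsP : hs (fun ν => mixR (PP v) (c i ν)) ≤ H ^ 2 * ω := hs_mix_PP_le hv (c i) H hu2 hdis
  have hrhoP := rho_mix_sq_le (c i) (T.k i ^ 3) hu3 (PP v)
  have hrhoP' : rho (fun ν => mixR (PP v) (c i ν)) ^ 2 / (T.k (i + 1) : ℝ) ≤ H ^ 2 * ω := by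
    rw [div_le_iff₀ hkkr]
    refine hrhoP.trans ?_
    have h1 : ((r * T.k i ^ 3 : ℕ) : ℝ) ≤ T.k (i + 1) := by
      refine le_trans ?_ hrk'
      exact le_mul_of_one_le_right (Nat.cast_nonneg _) hrr
    calc ((r * T.k i ^ 3 : ℕ) : ℝ) * hs (fun ν => mixR (PP v) (c i ν))
        ≤ T.k (i + 1) * (H ^ 2 * ω) :=
          mul_le_mul h1 hhsP (hs_nonneg _) (Nat.cast_nonneg _)
      _ = H ^ 2 * ω * T.k (i + 1) := by ring
  have hmcP2 : mcP ≤ 2 * β + θ := by
    refine hmcP.trans ?_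
    rw [hKT, hθ]
    have h3 : (K : ℝ) ^ 2 * (hs (fun ν => mixR (PP v) (c i ν)) +
          rho (fun ν => mixR (PP v) (c i ν)) ^ 2 / (T.k (i + 1) : ℝ)) ≤
          (K : ℝ) ^ 2 * (2 * (H ^ 2 * ω)) := by
      apply mul_le_mul_of_nonneg_left _ (by positivity)
      linarith
    linarith
  have hθr : θ ≤ m0 * r := by
    have h1 : θ ≤ 48 * (K : ℝ) ^ 4 * H ^ 4 / δ₁ * T.n i := by
      rw [hθ]
      calc 4 * (K : ℝ) ^ 2 * H ^ 2 * ω ≤ 4 * (K : ℝ) ^ 2 * H ^ 2 *
            (12 * (K : ℝ) ^ 2 * H ^ 2 * T.n i / δ₁) := by gcongr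
        _ = 48 * (K : ℝ) ^ 4 * H ^ 4 / δ₁ * T.n i := by ring
    have h2 : 48 * (K : ℝ) ^ 4 * H ^ 4 / δ₁ ≤ m0 * T.n i := by
      have h3 : 48 * (K : ℝ) ^ 4 * H ^ 4 / δ₁ = 48 * (K : ℝ) ^ 4 * H ^ 4 / (δ₁ * m0) * m0 := by
        field_simp
      rw [h3]
      have h4 : (Γ₁ : ℝ) ≤ T.n i := by exact_mod_cast haΓ.trans (hak.trans hkn)
      rw [mul_comm]
      exact mul_le_mul_of_nonneg_left (hΓ₁.le.trans h4) hm0p.le
    have h5 : (T.n i : ℝ) * T.n i ≤ r := by
      have : T.n i * T.n i ≤ r := by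
        refine le_trans ?_ hr
        have : T.n i * T.n i = T.n i ^ 2 := by ring
        rw [this]
        exact Nat.pow_le_pow_right (by omega) (by norm_num)
      exact_mod_cast this
    calc θ ≤ 48 * (K : ℝ) ^ 4 * H ^ 4 / δ₁ * T.n i := h1
      _ ≤ m0 * T.n i * T.n i := mul_le_mul_of_nonneg_right h2 hn0.le
      _ = m0 * (T.n i * T.n i) := by ring
      _ ≤ m0 * r := mul_le_mul_of_nonneg_left h5 hm0p.le
  have hθ0 : 0 ≤ θ := by rw [hθ]; positivity
  have hθ1 : θ ≤ 1 / 2 * r := hθr.trans (mul_le_mul_of_nonneg_right (min_le_left _ _) hr0.le)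
  have hθ2 : θ ≤ δ / 16 * r := hθr.trans (mul_le_mul_of_nonneg_right (min_le_right _ _) hr0.le)
  -- the cleaned tuple
  have hrepS := rep_smul X hrepP (-1)
  have hrep' := rep_add X hrep hrepS
  set z' : Fin r → E := fun j => z j + (-1 : ℝ) • mixE (PP v) z j with hz'
  have hz'sum : ∑ t, ‖z' t‖ ^ 2 ≤ 2 * α + 2 * mcP := by
    have h1 : ∀ t, ‖z' t‖ ^ 2 ≤ 2 * ‖z t‖ ^ 2 + 2 * ‖mixE (PP v) z t‖ ^ 2 := by
      intro t
      have h2 : ‖z' t‖ ≤ ‖z t‖ + ‖mixE (PP v) z t‖ := by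
        have := norm_add_le (z t) ((-1 : ℝ) • mixE (PP v) z t)
        rw [norm_smul, norm_neg, norm_one, one_mul] at this
        exact this
      have h3 := pow_le_pow_left₀ (norm_nonneg _) h2 2
      have h4 := add_sq_le (a := ‖z t‖) (b := ‖mixE (PP v) z t‖)
      linarith
    calc ∑ t, ‖z' t‖ ^ 2 ≤ ∑ t, (2 * ‖z t‖ ^ 2 + 2 * ‖mixE (PP v) z t‖ ^ 2) :=
          sum_le_sum fun t _ => h1 t
      _ = 2 * α + 2 * ∑ t, ‖mixE (PP v) z t‖ ^ 2 := by
          rw [sum_add_distrib, ← mul_sum, ← mul_sum]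
      _ ≤ 2 * α + 2 * mcP := by linarith
  -- good columns
  set good : Finset (Fin r) := univ.filter (fun t => ‖z' t‖ ≤ M) with hgood
  set bad : Finset (Fin r) := univ.filter (fun t => ¬ ‖z' t‖ ≤ M) with hbad
  have hgb : good.card + bad.card = r := by
    have := card_filter_add_card_filter_not (s := (univ : Finset (Fin r))) (fun t => ‖z' t‖ ≤ M)
    rw [card_univ, Fintype.card_fin] at this
    exact this
  have hbadM : (bad.card : ℝ) * M ≤ (4 * H ^ 2 + 1) * r := by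
    have h1 : (bad.card : ℝ) * M ^ 2 ≤ ∑ t, ‖z' t‖ ^ 2 := by
      calc (bad.card : ℝ) * M ^ 2 = ∑ _t ∈ bad, M ^ 2 := by simp
        _ ≤ ∑ t ∈ bad, ‖z' t‖ ^ 2 := by
            refine sum_le_sum fun t ht => ?_
            have h2 : M < ‖z' t‖ := by
              have := (mem_filter.1 ht).2
              exact not_le.1 this
            exact pow_le_pow_left₀ (by linarith) h2.le 2
        _ ≤ ∑ t, ‖z' t‖ ^ 2 :=
            sum_le_sum_of_subset_of_nonneg (subset_univ _) fun _ _ _ => sq_nonneg _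
    have h3 : (bad.card : ℝ) * M ≤ bad.card * M ^ 2 := by
      exact mul_le_mul_of_nonneg_left (le_self_pow₀ hM1 two_ne_zero) (Nat.cast_nonneg _)
    have h4 : 2 * α + 2 * mcP ≤ (4 * H ^ 2 + 1) * r := by
      have h5 : κ * r ≤ H ^ 2 * r := mul_le_mul_of_nonneg_right hκH hr0.le
      linarith
    exact h3.trans (h1.trans (hz'sum.trans h4))
  have hbad1 : (bad.card : ℝ) ≤ r / 2 := by
    have h1 : 2 * (10 * H ^ 2 + 1) ≤ M := by rw [hM]; linarith
    have h2 : (bad.card : ℝ) * (2 * (10 * H ^ 2 + 1)) ≤ bad.card * M :=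
      mul_le_mul_of_nonneg_left h1 (Nat.cast_nonneg _)
    have h3 : (bad.card : ℝ) * (2 * (10 * H ^ 2 + 1)) ≤ (10 * H ^ 2 + 1) * r := by
      have := mul_nonneg (sq_nonneg H) hr0.le
      linarith
    have h4 : (10 * H ^ 2 + 1) * (bad.card * 2 : ℝ) ≤ (10 * H ^ 2 + 1) * r := by linarith
    have h5 := le_of_mul_le_mul_left h4 (by positivity)
    linarith
  have hbad2 : H ^ 2 * (bad.card : ℝ) ≤ δ / 4 * r := by
    have h1 : 4 * H ^ 2 * (10 * H ^ 2 + 1) / δ ≤ M := by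
      rw [hM]
      have : 0 ≤ 2 * (10 * H ^ 2 + 1) := by positivity
      linarith
    have h2 : (bad.card : ℝ) * (4 * H ^ 2 * (10 * H ^ 2 + 1) / δ) ≤ bad.card * M :=
      mul_le_mul_of_nonneg_left h1 (Nat.cast_nonneg _)
    have h3 : (bad.card : ℝ) * (4 * H ^ 2 * (10 * H ^ 2 + 1) / δ) ≤ (10 * H ^ 2 + 1) * r := by
      have := mul_nonneg (sq_nonneg H) hr0.le
      linarith
    have h4 : (bad.card : ℝ) * (4 * H ^ 2 * (10 * H ^ 2 + 1) / δ) =
        (10 * H ^ 2 + 1) * (bad.card * (4 * H ^ 2) / δ) := by ring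
    rw [h4] at h3
    have h5 := le_of_mul_le_mul_left h3 (by positivity)
    rw [div_le_iff₀ hδ] at h5
    linarith
  obtain ⟨r', hr'⟩ : ∃ r' : ℕ, r' = good.card := ⟨_, rfl⟩
  have hr'2 : (r : ℝ) ≤ 2 * r' := by
    have h1 : (good.card : ℝ) + bad.card = r := by exact_mod_cast hgb
    rw [hr']
    linarith
  have hr'r : r' ≤ r := by omega
  have hr'0 : (0 : ℝ) < r' := by linarith
  let e : Fin r' ≃ good := (Fin.castOrderIso hr').toEquiv.trans good.equivFin.symm
  let τ : Fin r' → Fin r := fun l => (e l : Fin r)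
  have hτ : Function.Injective τ := fun l l' h => e.injective (Subtype.ext h)
  have hτg : ∀ l, ‖z' (τ l)‖ ≤ M := fun l => (mem_filter.1 (e l).2).2
  have hsumg : ∀ f : Fin r → ℝ, ∑ l, f (τ l) = ∑ j ∈ good, f j := by
    intro f
    rw [← Finset.sum_coe_sort good f]
    exact Equiv.sum_comp e (fun j : good => f j)
  -- the cost
  have hcost : ∑ l, ‖z' (τ l)‖ ^ 2 + T.mc (fun s b l => y s b (τ l) +
      -1 * mixR (PP v) (yU i y s b) (τ l)) (T.above i (fun s ν l => c s ν (τ l) +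
      -1 * mixR (PP v) (cU T i c s ν) (τ l))) ≤ 10 * (κ * r) + 4 * θ := by
    have h1 : ∑ l, ‖z' (τ l)‖ ^ 2 ≤ ∑ t, ‖z' t‖ ^ 2 :=
      sum_comp_le hτ (fun t => ‖z' t‖ ^ 2) fun t => sq_nonneg _
    have h2 : T.above i (fun s ν l => c s ν (τ l) + -1 * mixR (PP v) (cU T i c s ν) (τ l)) =
        fun s ν l => (fun s ν j => T.above i c s ν j + -1 * mixR (PP v) (cU T i c s ν) j) s ν
          (τ l) := by
      funext s ν l
      by_cases hsi : s ≤ i
      · have : mixR (PP v) (cU T i c s ν) (τ l) = 0 := by simp [mixR, cU, hsi]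
        simp [Tower.above, hsi, this]
      · simp [Tower.above, hsi]
    rw [h2]
    have h3 := mc_restr_le (T := T) hτ
      (fun s b j => y s b j + -1 * mixR (PP v) (yU i y s b) j)
      (fun s ν j => T.above i c s ν j + -1 * mixR (PP v) (cU T i c s ν) j)
    have h4 := mc_add_le (T := T) y (fun s b j => -1 * mixR (PP v) (yU i y s b) j) (T.above i c)
      (fun s ν j => -1 * mixR (PP v) (cU T i c s ν) j)
    have h5 := mc_smul (T := T) (-1) (fun s b j => mixR (PP v) (yU i y s b) j)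
      (fun s ν j => mixR (PP v) (cU T i c s ν) j)
    rw [h5] at h4
    have h6 : T.mc (fun s b j => mixR (PP v) (yU i y s b) j)
      (fun s ν j => mixR (PP v) (cU T i c s ν) j) = mcP := rfl
    rw [h6] at h4
    have h7 := h3.trans h4
    have h8 : α + β ≤ κ * r := hκ
    linarith
  -- the core
  have hn3r : T.n i ^ 3 ≤ r' := by
    have h1 : 2 * T.n i ^ 3 ≤ r := by
      refine le_trans ?_ hr
      calc 2 * T.n i ^ 3 ≤ T.n i * T.n i ^ 3 := Nat.mul_le_mul_right _ hn2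
        _ = T.n i ^ 4 := by ring
    have h2 : r ≤ 2 * r' := by exact_mod_cast hr'2
    omega
  have hcoreR := hcoreΓ g T hg hTK hTtop hT₀ E X F hF i hi r' hn3r
    ((Nat.pow_le_pow_left hr'r 4).trans hr4)
    (fun l => z' (τ l))
    (fun s b l => y s b (τ l) + -1 * mixR (PP v) (yU i y s b) (τ l))
    (fun s ν l => c s ν (τ l) + -1 * mixR (PP v) (cU T i c s ν) (τ l))
    (by
      intro l
      apply F.add_mem (hz _)
      apply F.smul_mem
      exact Submodule.sum_mem _ fun t _ => F.smul_mem _ (hz t))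
    (fun s hs b l => hrep' s hs b (τ l))
    (by
      intro s hs
      funext ν l
      have h1 : mixR (PP v) (cU T i c s ν) (τ l) = 0 := by
        have : s ≤ i := hs.le
        simp [mixR, cU, this]
      rw [h1, hc0 s hs]
      simp)
    (by
      intro l
      have h1 : (fun ν => c i ν (τ l) + -1 * mixR (PP v) (cU T i c i ν) (τ l)) =
          fun ν => c i ν (τ l) := by
        funext ν
        simp [mixR, cU]
      rw [h1]
      exact hSG (τ l))
    (by
      intro l l' hll ν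
      have h1 : ∀ l, c i ν (τ l) + -1 * mixR (PP v) (cU T i c i ν) (τ l) = c i ν (τ l) := by
        intro l
        simp [mixR, cU]
      rw [h1, h1]
      exact hdis _ _ (fun h => hll (hτ h)) ν)
    hτg
    (by
      intro w hw
      set W : Fin r → ℝ := ext0 τ w with hW
      have e1 : ∑ l, w l • z' (τ l) = ∑ j, (W j - mixR (PP v) W j) • z j := by
        rw [← sum_ext0 (τ := τ) w z', ← hW]
        exact sum_smul_sub_mix W z
      have h1 : (fun j => W j - mixR (PP v) W j) ∈ V₀ := by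
        rw [hmem]
        intro s hs
        rw [← e1]
        exact hw s hs
      have h2 := hmax _ h1 (fun e => orth_PP hv W e)
      rw [e1]
      have h3 := sub_PP_le hv W
      have h4 : ∑ j, W j ^ 2 = ∑ l, w l ^ 2 := ext0_sq hτ w
      rw [h4] at h3
      have h5 : δ₁ * r / (2 * T.n i) ≤ δ₁ * r' / T.n i := by
        rw [div_le_div_iff₀ (by positivity) hn0]
        have : δ₁ * r * T.n i ≤ δ₁ * (2 * r') * T.n i := by gcongr
        linarith
      have h6 : 0 ≤ δ₁ * r / (2 * T.n i) := by positivity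
      have h7 : 0 ≤ ∑ l, w l ^ 2 := by positivity
      calc ‖∑ j, (W j - mixR (PP v) W j) • z j‖ ^ 2
          ≤ δ₁ * r / (2 * T.n i) * ∑ j, (W j - mixR (PP v) W j) ^ 2 := h2
        _ ≤ δ₁ * r / (2 * T.n i) * ∑ l, w l ^ 2 := mul_le_mul_of_nonneg_left h3 h6
        _ ≤ δ₁ * r' / T.n i * ∑ l, w l ^ 2 := mul_le_mul_of_nonneg_right h5 h7)
    ((10 * (κ * r) + 4 * θ) / r')
    (by
      rw [div_mul_cancel₀ _ hr'0.ne']
      exact hcost)
  -- conclusion
  have h1 : ∀ l ν, c i ν (τ l) + -1 * mixR (PP v) (cU T i c i ν) (τ l) = c i ν (τ l) := by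
    intro l ν
    simp [mixR, cU]
  simp only [h1] at hcoreR
  rw [hsumg (fun j => ∑ ν, c i ν j ^ 2)] at hcoreR
  have h2 : ∑ t, ∑ ν, c i ν t ^ 2 = ∑ t ∈ good, ∑ ν, c i ν t ^ 2 + ∑ t ∈ bad, ∑ ν, c i ν t ^ 2 := by
    rw [hgood, hbad, sum_filter_add_sum_filter_not]
  have h3 : ∑ t ∈ bad, ∑ ν, c i ν t ^ 2 ≤ H ^ 2 * bad.card := by
    refine (sum_le_sum fun t _ => hu2 t).trans (le_of_eq ?_)
    simp [mul_comm]
  have h4 : Θ₀ * ((10 * (κ * r) + 4 * θ) / r' + δ / 4) * r' ≤ Θ₀ * (10 * κ + δ / 2) * r := by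
    have h5 : Θ₀ * ((10 * (κ * r) + 4 * θ) / r' + δ / 4) * r' =
        Θ₀ * (10 * (κ * r) + 4 * θ + δ / 4 * r') := by
      field_simp
    rw [h5]
    have h6 : 10 * (κ * r) + 4 * θ + δ / 4 * r' ≤ (10 * κ + δ / 2) * r := by
      have h7 : (r' : ℝ) ≤ r := by exact_mod_cast hr'r
      have h8 := mul_le_mul_of_nonneg_left h7 (show (0 : ℝ) ≤ δ / 4 by linarith)
      linarith
    calc Θ₀ * (10 * (κ * r) + 4 * θ + δ / 4 * r') ≤ Θ₀ * ((10 * κ + δ / 2) * r) :=
          mul_le_mul_of_nonneg_left h6 (by linarith)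
      _ = Θ₀ * (10 * κ + δ / 2) * r := by ring
  rw [h2]
  have h5 : Θ₀ * (10 * κ + δ / 2) * r + δ / 4 * r ≤ (10 * Θ₀ + 1) * (κ + δ) * r := by
    have h6 : Θ₀ * (10 * κ + δ / 2) + δ / 4 ≤ (10 * Θ₀ + 1) * (κ + δ) := by
      have h7 := mul_nonneg (zero_le_one.trans hΘ₀) hδ.le
      linarith
    have := mul_le_mul_of_nonneg_right h6 hr0.le
    linarith
  linarith

end Run7.h37.NEG.Clean
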