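import Pool.Agent.Run7.h35.NEG.Iface

set_option autoImplicit false

/-! Piece KW of the project of helper35 (MP_6c92e3_an): Kwapien's criterion. -/

namespace Run7.h37.NEG.KW

open Finset Module Run7.h35 Run7.h35.NEG

variable {X : Type} [NormedAddCommGroup X] [NormedSpace ℝ X]

/-- the criterion of `S_KW` for arbitrary finite index types -/
def Flat (X : Type) [NormedAddCommGroup X] [NormedSpace ℝ X] (D : ℝ) : Prop :=
  ∀ (J I : ℕ) (x : Fin J → X) (A : Fin I → Fin J → ℝ), (∀ j, ‖x j‖ ≤ 1) →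
      (∀ w : Fin J → ℝ, ∑ i, (∑ j, A i j * w j) ^ 2 ≤ ∑ j, w j ^ 2) →
      ∑ i, ‖∑ j, A i j • x j‖ ^ 2 ≤ D ^ 2 * J

theorem flat_fintype {D : ℝ} (h : Flat X D) {I : ℕ} {ι : Type} [Fintype ι] (x : ι → X)
    (A : Fin I → ι → ℝ) (hx : ∀ j, ‖x j‖ ≤ 1)
    (hA : ∀ w : ι → ℝ, ∑ i, (∑ j, A i j * w j) ^ 2 ≤ ∑ j, w j ^ 2) :
    ∑ i, ‖∑ j, A i j • x j‖ ^ 2 ≤ D ^ 2 * Fintype.card ι := by
  classical
  let e := (Fintype.equivFin ι).symm
  have h1 := h (Fintype.card ι) I (fun j => x (e j)) (fun i j => A i (e j)) (fun j => hx _) (by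
    intro w
    have h2 := hA (fun j => w (e.symm j))
    have h3 : ∀ i, ∑ j, A i (e j) * w j = ∑ j, A i j * w (e.symm j) := by
      intro i
      rw [← Equiv.sum_comp e (fun j => A i j * w (e.symm j))]
      simp
    have h4 : ∑ j, w j ^ 2 = ∑ j, w (e.symm j) ^ 2 := by
      rw [← Equiv.sum_comp e (fun j => w (e.symm j) ^ 2)]
      simp
    rw [h4]
    simp only [h3]
    exact h2)
  have h5 : ∀ i, ∑ j, A i (e j) • x (e j) = ∑ j, A i j • x j := by
    intro i
    exact Equiv.sum_comp e (fun j => A i j • x j)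
  simpa only [h5] using h1

/-- removal of the normalisation -/
theorem contraction {D : ℝ} (h : Flat X D) {I J : ℕ} (x : Fin J → X) (B : Fin I → Fin J → ℝ)
    (hB : ∀ w : Fin J → ℝ, ∑ i, (∑ j, B i j * w j) ^ 2 ≤ ∑ j, w j ^ 2) :
    ∑ i, ‖∑ j, B i j • x j‖ ^ 2 ≤ D ^ 2 * ∑ j, ‖x j‖ ^ 2 := by
  classical
  -- the inequality with an error
  have key : ∀ M : ℕ, 1 ≤ M →
      (M : ℝ) * ∑ i, ‖∑ j, B i j • x j‖ ^ 2 ≤ D ^ 2 * ((M : ℝ) * ∑ j, ‖x j‖ ^ 2 + J) := by
    intro M hM
    have hM0 : (0 : ℝ) < M := by exact_mod_cast hM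
    let t : Fin J → ℕ := fun j => ⌈(M : ℝ) * ‖x j‖ ^ 2⌉₊
    have ht1 : ∀ j, (M : ℝ) * ‖x j‖ ^ 2 ≤ t j := fun j => Nat.le_ceil _
    have ht2 : ∀ j, (t j : ℝ) ≤ (M : ℝ) * ‖x j‖ ^ 2 + 1 := fun j =>
      (Nat.ceil_lt_add_one (by positivity)).le
    have h1 := flat_fintype h (ι := Σ j : Fin J, Fin (t j))
      (fun p => (Real.sqrt M / Real.sqrt (t p.1)) • x p.1)
      (fun i p => B i p.1 / Real.sqrt (t p.1)) (by
        rintro ⟨j, l⟩
        have htj : (0 : ℝ) < t j := by
          have := l.pos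
          exact_mod_cast this
        have hs : 0 < Real.sqrt (t j) := Real.sqrt_pos.2 htj
        rw [norm_smul, Real.norm_of_nonneg (by positivity), div_mul_eq_mul_div, div_le_one hs]
        apply Real.le_sqrt_of_sq_le
        rw [mul_pow, Real.sq_sqrt hM0.le]
        exact ht1 j) (by
        intro w
        have h2 := hB (fun j => (∑ l, w ⟨j, l⟩) / Real.sqrt (t j))
        have h3 : ∀ i, ∑ p : Σ j : Fin J, Fin (t j), B i p.1 / Real.sqrt (t p.1) * w p =
            ∑ j, B i j * ((∑ l, w ⟨j, l⟩) / Real.sqrt (t j)) := by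
          intro i
          rw [Fintype.sum_sigma]
          refine sum_congr rfl fun j _ => ?_
          show ∑ l, B i j / Real.sqrt (t j) * w ⟨j, l⟩ = _
          rw [← Finset.mul_sum]
          ring
        simp only [h3]
        refine h2.trans ?_
        rw [Fintype.sum_sigma]
        refine sum_le_sum fun j _ => ?_
        rw [div_pow, Real.sq_sqrt (Nat.cast_nonneg _)]
        rcases Nat.eq_zero_or_pos (t j) with h0 | h0
        · have : (∑ l, w ⟨j, l⟩) = 0 := by
            have : IsEmpty (Fin (t j)) := by rw [h0]; infer_instance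
            simp
          rw [this]
          simp
          exact sum_nonneg fun _ _ => sq_nonneg _
        · have htj : (0 : ℝ) < t j := by exact_mod_cast h0
          rw [div_le_iff₀ htj]
          have := sq_sum_le_card_mul_sum_sq (s := (univ : Finset (Fin (t j))))
            (f := fun l => w ⟨j, l⟩)
          rw [card_univ, Fintype.card_fin] at this
          linarith [this])
    have h4 : ∀ i, ∑ p : Σ j : Fin J, Fin (t j), (B i p.1 / Real.sqrt (t p.1)) •
        (Real.sqrt M / Real.sqrt (t p.1)) • x p.1 = Real.sqrt M • ∑ j, B i j • x j := by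
      intro i
      rw [Fintype.sum_sigma, Finset.smul_sum]
      refine sum_congr rfl fun j _ => ?_
      simp only [sum_const, card_univ, Fintype.card_fin]
      rcases Nat.eq_zero_or_pos (t j) with h0 | h0
      · have hx0 : x j = 0 := by
          have h5 := ht1 j
          rw [h0] at h5
          have h6 : (M : ℝ) * ‖x j‖ ^ 2 = 0 := le_antisymm (by simpa using h5) (by positivity)
          have h7 : ‖x j‖ ^ 2 = 0 := by
            rcases mul_eq_zero.1 h6 with h8 | h8
            · exact absurd h8 hM0.ne'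
            · exact h8
          exact norm_eq_zero.1 (pow_eq_zero_iff (two_ne_zero) |>.1 h7)
        simp [hx0]
      · have htj : (0 : ℝ) < t j := by exact_mod_cast h0
        have hs : Real.sqrt (t j) ≠ 0 := (Real.sqrt_pos.2 htj).ne'
        have hs2 : Real.sqrt (t j) * Real.sqrt (t j) = t j := Real.mul_self_sqrt htj.le
        rw [← Nat.cast_smul_eq_nsmul ℝ, smul_smul, smul_smul, smul_smul]
        congr 1
        field_simp
        rw [pow_two, hs2]
        ring
    simp only [h4, norm_smul, mul_pow] at h1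
    rw [← Finset.mul_sum, Real.norm_of_nonneg (Real.sqrt_nonneg _), Real.sq_sqrt hM0.le] at h1
    refine h1.trans ?_
    apply mul_le_mul_of_nonneg_left _ (sq_nonneg D)
    rw [Fintype.card_sigma]
    simp only [Fintype.card_fin]
    push_cast
    calc ∑ j, (t j : ℝ) ≤ ∑ j, ((M : ℝ) * ‖x j‖ ^ 2 + 1) := sum_le_sum fun j _ => ht2 j
      _ = (M : ℝ) * ∑ j, ‖x j‖ ^ 2 + J := by
        rw [sum_add_distrib, ← Finset.mul_sum]
        simp
  -- the limit
  by_contra hcon
  push Not at hcon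
  set L := ∑ i, ‖∑ j, B i j • x j‖ ^ 2
  set S := ∑ j, ‖x j‖ ^ 2
  obtain ⟨M, hM⟩ := exists_nat_gt (D ^ 2 * J / (L - D ^ 2 * S))
  have hpos : 0 < L - D ^ 2 * S := by linarith
  have hM1 : 1 ≤ M := by
    rcases Nat.eq_zero_or_pos M with h0 | h0
    · rw [h0] at hM
      have : 0 ≤ D ^ 2 * J / (L - D ^ 2 * S) := by positivity
      simp at hM
      linarith
    · exact h0
  have h2 := key M hM1
  rw [div_lt_iff₀ hpos] at hM
  nlinarith

/-- the criterion for tuples compared by functionals -/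
theorem compare [FiniteDimensional ℝ X] {D : ℝ} (h : Flat X D) {I J : ℕ} (x : Fin J → X)
    (y : Fin I → X) (hxy : ∀ φ : Dual ℝ X, ∑ i, φ (y i) ^ 2 ≤ ∑ j, φ (x j) ^ 2) :
    ∑ i, ‖y i‖ ^ 2 ≤ D ^ 2 * ∑ j, ‖x j‖ ^ 2 := by
  classical
  let T : Dual ℝ X →ₗ[ℝ] EuclideanSpace ℝ (Fin J) :=
    { toFun := fun φ => WithLp.toLp 2 (fun j => φ (x j))
      map_add' := fun φ ψ => by ext j; simp
      map_smul' := fun a φ => by ext j; simp }
  let S : Dual ℝ X →ₗ[ℝ] EuclideanSpace ℝ (Fin I) :=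
    { toFun := fun φ => WithLp.toLp 2 (fun j => φ (y j))
      map_add' := fun φ ψ => by ext j; simp
      map_smul' := fun a φ => by ext j; simp }
  have hTn : ∀ φ, ‖T φ‖ ^ 2 = ∑ j, φ (x j) ^ 2 := by
    intro φ
    rw [EuclideanSpace.norm_sq_eq]
    simp [T]
  have hSn : ∀ φ, ‖S φ‖ ^ 2 = ∑ j, φ (y j) ^ 2 := by
    intro φ
    rw [EuclideanSpace.norm_sq_eq]
    simp [S]
  have hST : ∀ φ, ‖S φ‖ ≤ ‖T φ‖ := by
    intro φ
    have := hxy φ
    rw [← hTn, ← hSn] at this
    exact (sq_le_sq₀ (norm_nonneg _) (norm_nonneg _)).1 this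
  obtain ⟨R, hR⟩ := LinearMap.exists_rightInverse_of_surjective T.rangeRestrict
    (LinearMap.range_rangeRestrict T)
  have hR' : ∀ v : LinearMap.range T, T (R v) = v := by
    intro v
    have := congrArg (fun f => ((f v : LinearMap.range T) : EuclideanSpace ℝ (Fin J))) hR
    simpa using this
  let P : EuclideanSpace ℝ (Fin J) →ₗ[ℝ] LinearMap.range T :=
    ((LinearMap.range T).orthogonalProjectionOnto : EuclideanSpace ℝ (Fin J) →ₗ[ℝ] _)
  let B : EuclideanSpace ℝ (Fin J) →ₗ[ℝ] EuclideanSpace ℝ (Fin I) := S ∘ₗ R ∘ₗ P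
  have hBn : ∀ v, ‖B v‖ ≤ ‖v‖ := by
    intro v
    have h1 : ‖B v‖ ≤ ‖T (R (P v))‖ := hST _
    rw [hR'] at h1
    refine h1.trans ?_
    exact Submodule.norm_orthogonalProjectionOnto_apply_le (LinearMap.range T) v
  have hBT : ∀ φ, B (T φ) = S φ := by
    intro φ
    have h1 : P (T φ) = ⟨T φ, LinearMap.mem_range_self T φ⟩ := by
      have := Submodule.orthogonalProjectionOnto_mem_subspace_eq_self
        (K := LinearMap.range T) (⟨T φ, LinearMap.mem_range_self T φ⟩ : LinearMap.range T)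
      exact this
    have h2 : T (R (P (T φ))) = T φ := by rw [h1, hR']
    have h3 : ‖S (R (P (T φ)) - φ)‖ ≤ ‖T (R (P (T φ)) - φ)‖ := hST _
    rw [map_sub T, h2, sub_self, norm_zero] at h3
    have h4 : S (R (P (T φ)) - φ) = 0 := norm_le_zero_iff.1 h3
    rw [map_sub, sub_eq_zero] at h4
    exact h4
  let A : Fin I → Fin J → ℝ := fun i j => B (EuclideanSpace.single j 1) i
  have hA : ∀ (v : EuclideanSpace ℝ (Fin J)) i, B v i = ∑ j, A i j * v j := by
    intro v i
    have h1 : v = ∑ j, v j • EuclideanSpace.single j (1 : ℝ) := by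
      ext k
      simp [Pi.single_apply]
    conv_lhs => rw [h1]
    rw [map_sum]
    simp only [map_smul]
    simp [A, mul_comm]
  have hyx : ∀ i, y i = ∑ j, A i j • x j := by
    intro i
    rw [← sub_eq_zero, ← Module.forall_dual_apply_eq_zero_iff ℝ]
    intro φ
    have h1 : S φ i = ∑ j, A i j * T φ j := by rw [← hBT, hA]
    have h2 : S φ i = φ (y i) := rfl
    have h3 : ∀ j, T φ j = φ (x j) := fun j => rfl
    rw [map_sub, map_sum, ← h2, h1]
    simp [h3]
  have h5 := contraction h x A (by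
    intro w
    have h6 := hBn (WithLp.toLp 2 w)
    have h7 := (sq_le_sq₀ (norm_nonneg _) (norm_nonneg _)).2 h6
    rw [EuclideanSpace.norm_sq_eq, EuclideanSpace.norm_sq_eq] at h7
    simpa [hA] using h7)
  simpa only [← hyx] using h5

/-- the function `φ ↦ φ x φ y` on the dual -/
def ev2 (x y : X) : Dual ℝ X → ℝ := fun φ => φ x * φ y

/-- the span of the squares -/
def E2 (X : Type) [NormedAddCommGroup X] [NormedSpace ℝ X] : Submodule ℝ (Dual ℝ X → ℝ) :=
  Submodule.span ℝ (Set.range fun x : X => ev2 x x)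

theorem ev2_mem (x y : X) : ev2 x y ∈ E2 X := by
  have h1 : ev2 (x + y) (x + y) ∈ E2 X := Submodule.subset_span ⟨x + y, rfl⟩
  have h2 : ev2 (x - y) (x - y) ∈ E2 X := Submodule.subset_span ⟨x - y, rfl⟩
  have h3 : ev2 x y = (1 / 4 : ℝ) • (ev2 (x + y) (x + y) - ev2 (x - y) (x - y)) := by
    funext φ
    simp only [ev2, Pi.smul_apply, Pi.sub_apply, map_add, map_sub, smul_eq_mul]
    ring
  rw [h3]
  exact Submodule.smul_mem _ _ (Submodule.sub_mem _ h1 h2)

/-- `v = ∑ e(y) - ∑ e(x)` -/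
def Rep (v : Dual ℝ X → ℝ) (l m : List X) : Prop :=
  ∀ φ, v φ = (l.map fun x => φ x ^ 2).sum - (m.map fun x => φ x ^ 2).sum

theorem Rep.add {v v' : Dual ℝ X → ℝ} {l m l' m' : List X} (h : Rep v l m) (h' : Rep v' l' m') :
    Rep (v + v') (l ++ l') (m ++ m') := by
  intro φ
  simp only [Pi.add_apply, h φ, h' φ, List.map_append, List.sum_append]
  ring

theorem sum_scale (l : List X) (c : ℝ) (hc : 0 ≤ c) (φ : Dual ℝ X) :
    ((l.map fun x => Real.sqrt c • x).map fun x => φ x ^ 2).sum =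
      c * (l.map fun x => φ x ^ 2).sum := by
  rw [List.map_map, ← List.sum_map_mul_left]
  congr 1
  apply List.map_congr_left
  intro x _
  simp only [Function.comp, map_smul, smul_eq_mul, mul_pow, Real.sq_sqrt hc]

theorem norm_scale (l : List X) (c : ℝ) (hc : 0 ≤ c) :
    ((l.map fun x => Real.sqrt c • x).map fun x => ‖x‖ ^ 2).sum =
      c * (l.map fun x => ‖x‖ ^ 2).sum := by
  rw [List.map_map, ← List.sum_map_mul_left]
  congr 1
  apply List.map_congr_left
  intro x _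
  simp only [Function.comp, norm_smul, mul_pow, Real.norm_of_nonneg (Real.sqrt_nonneg c),
    Real.sq_sqrt hc]

theorem Rep.smul {v : Dual ℝ X → ℝ} {l m : List X} (h : Rep v l m) {c : ℝ} (hc : 0 ≤ c) :
    Rep (c • v) (l.map fun x => Real.sqrt c • x) (m.map fun x => Real.sqrt c • x) := by
  intro φ
  rw [sum_scale _ _ hc, sum_scale _ _ hc, Pi.smul_apply, h φ, smul_eq_mul]
  ring

theorem Rep.neg {v : Dual ℝ X → ℝ} {l m : List X} (h : Rep v l m) : Rep (-v) m l := by
  intro φ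
  rw [Pi.neg_apply, h φ]
  ring

theorem exists_rep (v : E2 X) : ∃ l m : List X, Rep (v : Dual ℝ X → ℝ) l m := by
  obtain ⟨v, hv⟩ := v
  show ∃ l m : List X, Rep v l m
  refine Submodule.span_induction (p := fun v _ => ∃ l m : List X, Rep v l m) ?_ ?_ ?_ ?_ hv
  · rintro _ ⟨x, rfl⟩
    exact ⟨[x], [], fun φ => by simp [ev2, pow_two]⟩
  · exact ⟨[], [], fun φ => by simp⟩
  · rintro v v' _ _ ⟨l, m, h⟩ ⟨l', m', h'⟩
    exact ⟨_, _, h.add h'⟩
  · rintro c v _ ⟨l, m, h⟩
    rcases le_total 0 c with hc | hc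
    · exact ⟨_, _, h.smul hc⟩
    · have h1 := (h.smul (c := -c) (by linarith)).neg
      rw [neg_smul, neg_neg] at h1
      exact ⟨_, _, h1⟩

/-- the cone of the extension theorem -/
def cone (X : Type) [NormedAddCommGroup X] [NormedSpace ℝ X] (D : ℝ) :
    ConvexCone ℝ (E2 X × ℝ) where
  carrier := {p | ∃ l m : List X, Rep (p.1 : Dual ℝ X → ℝ) l m ∧
    p.2 = D ^ 2 * (m.map fun x => ‖x‖ ^ 2).sum - (l.map fun x => ‖x‖ ^ 2).sum}
  smul_mem' := by
    rintro c hc ⟨v, t⟩ ⟨l, m, h1, h2⟩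
    refine ⟨_, _, h1.smul hc.le, ?_⟩
    rw [norm_scale _ _ hc.le, norm_scale _ _ hc.le]
    show c • t = _
    simp only at h2
    rw [h2, smul_eq_mul]
    ring
  add_mem' := by
    rintro ⟨v, t⟩ ⟨l, m, h1, h2⟩ ⟨v', t'⟩ ⟨l', m', h1', h2'⟩
    refine ⟨_, _, h1.add h1', ?_⟩
    simp only at h2 h2'
    show t + t' = _
    rw [h2, h2', List.map_append, List.map_append, List.sum_append, List.sum_append]
    ring

theorem cone_pointed (D : ℝ) : (cone X D).Pointed :=
  ⟨[], [], fun φ => by simp, by simp⟩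

theorem exists_form [FiniteDimensional ℝ X] {D : ℝ} (h : Flat X D) :
    ∃ B : LinearMap.BilinForm ℝ X, LinearMap.IsSymm B ∧ ∀ x, ‖x‖ ^ 2 ≤ B x x ∧ B x x ≤ D ^ 2 * ‖x‖ ^ 2 := by
  classical
  let f : (E2 X × ℝ) →ₗ.[ℝ] ℝ :=
    ⟨LinearMap.ker (LinearMap.fst ℝ (E2 X) ℝ), (LinearMap.snd ℝ (E2 X) ℝ).domRestrict _⟩
  obtain ⟨g, hg1, hg2⟩ := riesz_extension ((cone X D).toPointedCone (cone_pointed D)) f (by
    rintro ⟨⟨v, t⟩, hv⟩ ⟨l, m, h1, h2⟩
    have hv0 : v = 0 := hv
    show (0 : ℝ) ≤ t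
    simp only at h1 h2
    rw [h2, sub_nonneg]
    have h3 := compare h (fun j : Fin m.length => m[j.1]) (fun j : Fin l.length => l[j.1]) (by
      intro φ
      rw [Fin.sum_univ_fun_getElem l (fun x => φ x ^ 2),
        Fin.sum_univ_fun_getElem m (fun x => φ x ^ 2)]
      have h4 := h1 φ
      rw [hv0] at h4
      simp only [ZeroMemClass.coe_zero, Pi.zero_apply] at h4
      linarith)
    rw [Fin.sum_univ_fun_getElem l (fun x => ‖x‖ ^ 2),
        Fin.sum_univ_fun_getElem m (fun x => ‖x‖ ^ 2)] at h3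
    exact h3) (by
    rintro ⟨v, t⟩
    obtain ⟨l, m, hlm⟩ := exists_rep v
    refine ⟨⟨(0, D ^ 2 * (m.map fun x => ‖x‖ ^ 2).sum - (l.map fun x => ‖x‖ ^ 2).sum - t), ?_⟩,
      l, m, ?_, ?_⟩
    · show (0 : E2 X) = 0
      rfl
    · simpa using hlm
    · simp)
  have hg0 : ∀ t : ℝ, g (0, t) = t := by
    intro t
    exact hg1 ⟨(0, t), by show (0 : E2 X) = 0; rfl⟩
  have hsplit : ∀ (v : E2 X) (t : ℝ), g (v, t) = g (v, 0) + t := by
    intro v t
    have : ((v, t) : E2 X × ℝ) = (v, 0) + (0, t) := by simp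
    rw [this, map_add, hg0]
  let Λ : E2 X →ₗ[ℝ] ℝ := g ∘ₗ LinearMap.inl ℝ (E2 X) ℝ
  let q : X → X → E2 X := fun x y => ⟨ev2 x y, ev2_mem x y⟩
  let B : LinearMap.BilinForm ℝ X := LinearMap.mk₂ ℝ (fun x y => Λ (q x y))
    (by
      intro x x' y
      rw [← map_add]
      congr 1
      apply Subtype.ext
      funext φ
      show φ (x + x') * φ y = φ x * φ y + φ x' * φ y
      rw [map_add]; ring)
    (by
      intro c x y
      rw [← map_smul]
      congr 1
      apply Subtype.ext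
      funext φ
      show φ (c • x) * φ y = c * (φ x * φ y)
      rw [map_smul, smul_eq_mul]; ring)
    (by
      intro x y y'
      rw [← map_add]
      congr 1
      apply Subtype.ext
      funext φ
      show φ x * φ (y + y') = φ x * φ y + φ x * φ y'
      rw [map_add]; ring)
    (by
      intro c x y
      rw [← map_smul]
      congr 1
      apply Subtype.ext
      funext φ
      show φ x * φ (c • y) = c * (φ x * φ y)
      rw [map_smul, smul_eq_mul]; ring)
  have hB : ∀ x y, B x y = g (q x y, 0) := fun x y => rfl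
  refine ⟨B, ⟨?_⟩, ?_⟩
  · intro x y
    simp only [RingHom.id_apply]
    rw [hB, hB]
    congr 2
    apply Subtype.ext
    funext φ
    show φ x * φ y = φ y * φ x
    ring
  · intro x
    constructor
    · have h1 := hg2 (q x x, -‖x‖ ^ 2) ⟨[x], [], by
        intro φ
        show φ x * φ x = _
        simp [pow_two], by simp⟩
      rw [hsplit] at h1
      rw [hB]
      linarith
    · have h1 := hg2 (-q x x, D ^ 2 * ‖x‖ ^ 2) ⟨[], [x], by
        intro φ
        show -(φ x * φ x) = _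
        simp [pow_two], by simp⟩
      rw [hsplit] at h1
      have h2 : ((-q x x, 0) : E2 X × ℝ) = -(q x x, 0) := by simp
      rw [h2, map_neg] at h1
      rw [hB]
      linarith

theorem main : S_KW := by
  intro X _ _ _ D hD h hdist
  have hf : Flat X D := fun J I x A => h J I x A
  obtain ⟨B, hBs, hB⟩ := exists_form hf
  have : Invertible (2 : ℝ) := invertibleOfNonzero two_ne_zero
  obtain ⟨b, hb⟩ := LinearMap.BilinForm.exists_orthogonal_basis hBs
  have hpos : ∀ i, 0 < B (b i) (b i) := by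
    intro i
    have h1 := (hB (b i)).1
    have h2 : 0 < ‖b i‖ := norm_pos_iff.2 (b.ne_zero i)
    nlinarith
  have hc : ∀ i, Real.sqrt (B (b i) (b i)) ≠ 0 := fun i => (Real.sqrt_pos.2 (hpos i)).ne'
  let L : X ≃ₗ[ℝ] EuclideanSpace ℝ (Fin (finrank ℝ X)) :=
    (b.equivFun.trans (LinearEquiv.piCongrRight fun i =>
      LinearEquiv.smulOfNeZero ℝ ℝ (Real.sqrt (B (b i) (b i))) (hc i))).trans
      (WithLp.linearEquiv 2 ℝ (Fin (finrank ℝ X) → ℝ)).symm
  have hL : ∀ x i, L x i = Real.sqrt (B (b i) (b i)) * b.repr x i := by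
    intro x i
    simp [L]
  have hLn : ∀ x, ‖L x‖ ^ 2 = B x x := by
    intro x
    rw [EuclideanSpace.norm_sq_eq]
    simp only [hL, Real.norm_eq_abs, sq_abs, mul_pow, Real.sq_sqrt (hpos _).le]
    conv_rhs => rw [← b.sum_repr x]
    simp only [map_sum, LinearMap.sum_apply, map_smul, LinearMap.smul_apply, smul_eq_mul]
    refine sum_congr rfl fun i _ => ?_
    rw [Finset.sum_eq_single i]
    · ring
    · intro j _ hji
      have : B (b j) (b i) = 0 := hb hji
      rw [this]; ring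
    · intro hi; exact absurd (mem_univ i) hi
  let T : X ≃L[ℝ] EuclideanSpace ℝ (Fin (finrank ℝ X)) := L.toContinuousLinearEquiv
  have hTn : ‖(T : X →L[ℝ] EuclideanSpace ℝ (Fin (finrank ℝ X)))‖ ≤ D := by
    apply ContinuousLinearMap.opNorm_le_bound _ hD.le
    intro x
    show ‖L x‖ ≤ D * ‖x‖
    apply (sq_le_sq₀ (norm_nonneg _) (by positivity)).1
    rw [hLn, mul_pow]
    exact (hB x).2
  have hTs : ‖(T.symm : EuclideanSpace ℝ (Fin (finrank ℝ X)) →L[ℝ] X)‖ ≤ 1 := by
    apply ContinuousLinearMap.opNorm_le_bound _ zero_le_one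
    intro y
    show ‖L.symm y‖ ≤ 1 * ‖y‖
    rw [one_mul]
    apply (sq_le_sq₀ (norm_nonneg _) (norm_nonneg _)).1
    have h1 := (hB (L.symm y)).1
    rw [← hLn, LinearEquiv.apply_symm_apply] at h1
    exact h1
  have h1 := hdist T
  have h2 : ‖(T : X →L[ℝ] EuclideanSpace ℝ (Fin (finrank ℝ X)))‖ *
      ‖(T.symm : EuclideanSpace ℝ (Fin (finrank ℝ X)) →L[ℝ] X)‖ ≤ D * 1 :=
    mul_le_mul hTn hTs (norm_nonneg _) hD.le
  linarith

end Run7.h37.NEG.KW
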