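import Pool.Agent.Run7.h35.NEG.Iface3

set_option autoImplicit false

/-! Piece CLEAN of the project of helper35 (MP_6c92e3_an), part A: linear algebra and
representations. -/

namespace Run7.h37.NEG.Clean

open Finset Module Run7.h35 Run7.h35.NEG

/-! ### orthonormal families -/

/-- an orthonormal family of vectors of `ℝ^r` -/
def ON {r ω : ℕ} (v : Fin ω → Fin r → ℝ) : Prop :=
  ∀ e f, ∑ j, v e j * v f j = if e = f then 1 else 0

theorem on_card_le {r ω : ℕ} {v : Fin ω → Fin r → ℝ} (h : ON v) : ω ≤ r := by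
  have hli : LinearIndependent ℝ v := by
    rw [Fintype.linearIndependent_iff]
    intro g hg e
    have h1 : ∑ j, v e j * (∑ f, g f • v f) j = 0 := by
      rw [hg]; simp
    simp only [Finset.sum_apply, Pi.smul_apply, smul_eq_mul, mul_sum] at h1
    rw [sum_comm] at h1
    have h2 : ∀ f, ∑ j, v e j * (g f * v f j) = g f * if e = f then 1 else 0 := by
      intro f
      rw [← h e f, mul_sum]
      exact sum_congr rfl fun j _ => by ring
    simp only [h2] at h1
    simpa using h1
  have := hli.fintype_card_le_finrank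
  simpa using this

theorem exists_max {r : ℕ} (V : Submodule ℝ (Fin r → ℝ)) (q : (Fin r → ℝ) → ℝ)
    (hq : ∀ (a : ℝ) v, q (a • v) = a ^ 2 * q v) (σ : ℝ) :
    ∃ (ω : ℕ) (v : Fin ω → Fin r → ℝ), ON v ∧ (∀ e, v e ∈ V) ∧ (∀ e, σ < q (v e)) ∧
      ∀ w ∈ V, (∀ e, ∑ j, v e j * w j = 0) → q w ≤ σ * ∑ j, w j ^ 2 := by
  classical
  let P : ℕ → Prop := fun ω => ∃ v : Fin ω → Fin r → ℝ, ON v ∧ (∀ e, v e ∈ V) ∧ (∀ e, σ < q (v e))
  have h0 : P 0 := ⟨fun e => e.elim0, fun e => e.elim0, fun e => e.elim0, fun e => e.elim0⟩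
  have hbd : ∀ m, P m → m ≤ r := fun m ⟨v, hv, _⟩ => on_card_le hv
  have hspec : P (Nat.findGreatest P r) := Nat.findGreatest_spec (Nat.zero_le r) h0
  obtain ⟨v, hv1, hv2, hv3⟩ := hspec
  refine ⟨_, v, hv1, hv2, hv3, ?_⟩
  intro w hw horth
  by_contra hcon
  push Not at hcon
  set S := ∑ j, w j ^ 2 with hS
  have hS0 : 0 ≤ S := by positivity
  have hSpos : 0 < S := by
    rcases hS0.eq_or_lt with h | h
    · exfalso
      have hw0 : w = 0 := by
        funext j
        have := (sum_eq_zero_iff_of_nonneg (fun j _ => sq_nonneg (w j))).1 (hS.symm.trans h.symm) j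
          (mem_univ j)
        exact pow_eq_zero_iff (two_ne_zero) |>.1 this
      have h1 := hq 0 w
      rw [zero_smul] at h1
      rw [← h, hw0, h1] at hcon
      simp at hcon
    · exact h
  set N := Real.sqrt S with hN
  have hN0 : 0 < N := Real.sqrt_pos.2 hSpos
  have hN2 : N ^ 2 = S := Real.sq_sqrt hS0
  set w' : Fin r → ℝ := N⁻¹ • w with hw'
  have hw'1 : ∑ j, w' j * w' j = 1 := by
    have : ∑ j, w' j * w' j = N⁻¹ ^ 2 * S := by
      rw [hS, mul_sum]
      refine sum_congr rfl fun j _ => ?_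
      simp only [hw', Pi.smul_apply, smul_eq_mul]
      ring
    rw [this, ← hN2]
    field_simp
  have horth' : ∀ e, ∑ j, v e j * w' j = 0 := by
    intro e
    have : ∑ j, v e j * w' j = N⁻¹ * ∑ j, v e j * w j := by
      rw [mul_sum]
      refine sum_congr rfl fun j _ => ?_
      simp only [hw', Pi.smul_apply, smul_eq_mul]
      ring
    rw [this, horth, mul_zero]
  have hP : P (Nat.findGreatest P r + 1) := by
    refine ⟨Fin.snoc v w', ?_, ?_, ?_⟩
    · intro e f
      refine Fin.lastCases ?_ (fun e => ?_) e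
      · refine Fin.lastCases ?_ (fun f => ?_) f
        · simp [hw'1]
        · simp only [Fin.snoc_last, Fin.snoc_castSucc]
          rw [if_neg (Fin.castSucc_lt_last f).ne']
          rw [← horth' f]
          exact sum_congr rfl fun j _ => mul_comm _ _
      · refine Fin.lastCases ?_ (fun f => ?_) f
        · simp only [Fin.snoc_last, Fin.snoc_castSucc]
          rw [if_neg (Fin.castSucc_lt_last e).ne]
          exact horth' e
        · simp only [Fin.snoc_castSucc, Fin.castSucc_inj]
          exact hv1 e f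
    · intro e
      refine Fin.lastCases ?_ (fun e => ?_) e
      · simp only [Fin.snoc_last]
        exact V.smul_mem _ hw
      · simp only [Fin.snoc_castSucc]
        exact hv2 e
    · intro e
      refine Fin.lastCases ?_ (fun e => ?_) e
      · simp only [Fin.snoc_last]
        rw [hw', hq, inv_pow, hN2]
        rw [← div_eq_inv_mul, lt_div_iff₀ hSpos]
        exact hcon
      · simp only [Fin.snoc_castSucc]
        exact hv3 e
  have := Nat.le_findGreatest (hbd _ hP) hP
  omega

/-- the matrix of the projection onto the span of an orthonormal family -/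
def PP {r ω : ℕ} (v : Fin ω → Fin r → ℝ) (j t : Fin r) : ℝ := ∑ e, v e j * v e t

section PP

variable {r ω : ℕ} {v : Fin ω → Fin r → ℝ}

theorem PP_symm (j t : Fin r) : PP v j t = PP v t j := by
  unfold PP
  exact sum_congr rfl fun e _ => mul_comm _ _

theorem mix_PP (w : Fin r → ℝ) (j : Fin r) :
    mixR (PP v) w j = ∑ e, v e j * ∑ t, v e t * w t := by
  unfold mixR PP
  simp only [sum_mul, mul_sum]
  rw [sum_comm]
  exact sum_congr rfl fun e _ => sum_congr rfl fun t _ => by ring

theorem sq_mix_PP (h : ON v) (w : Fin r → ℝ) :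
    ∑ j, mixR (PP v) w j ^ 2 = ∑ e, (∑ t, v e t * w t) ^ 2 := by
  have h1 : ∀ j, mixR (PP v) w j ^ 2 =
      ∑ e, ∑ f, (v e j * v f j) * ((∑ t, v e t * w t) * ∑ t, v f t * w t) := by
    intro j
    rw [mix_PP, pow_two, sum_mul_sum]
    exact sum_congr rfl fun e _ => sum_congr rfl fun f _ => by ring
  simp only [h1]
  rw [sum_comm]
  refine sum_congr rfl fun e _ => ?_
  rw [sum_comm]
  have h2 : ∀ f, ∑ j, (v e j * v f j) * ((∑ t, v e t * w t) * ∑ t, v f t * w t) =
      (if e = f then 1 else 0) * ((∑ t, v e t * w t) * ∑ t, v f t * w t) := by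
    intro f
    rw [← sum_mul, h e f]
  simp only [h2]
  simp [pow_two]

theorem inner_mix_PP (w : Fin r → ℝ) :
    ∑ j, w j * mixR (PP v) w j = ∑ e, (∑ t, v e t * w t) ^ 2 := by
  simp only [mix_PP, mul_sum]
  rw [sum_comm]
  refine sum_congr rfl fun e _ => ?_
  rw [pow_two, sum_mul_sum]
  refine sum_congr rfl fun j _ => sum_congr rfl fun t _ => by ring

theorem sub_PP (h : ON v) (w : Fin r → ℝ) :
    ∑ j, (w j - mixR (PP v) w j) ^ 2 = ∑ j, w j ^ 2 - ∑ e, (∑ t, v e t * w t) ^ 2 := by
  have h1 : ∑ j, (w j - mixR (PP v) w j) ^ 2 =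
      ∑ j, w j ^ 2 - 2 * ∑ j, w j * mixR (PP v) w j + ∑ j, mixR (PP v) w j ^ 2 := by
    rw [mul_sum, ← sum_sub_distrib, ← sum_add_distrib]
    exact sum_congr rfl fun j _ => by ring
  rw [h1, inner_mix_PP, sq_mix_PP h]
  ring

theorem sub_PP_le (h : ON v) (w : Fin r → ℝ) :
    ∑ j, (w j - mixR (PP v) w j) ^ 2 ≤ ∑ j, w j ^ 2 := by
  rw [sub_PP h]
  have : 0 ≤ ∑ e, (∑ t, v e t * w t) ^ 2 := by positivity
  linarith

theorem contr_PP (h : ON v) : Contr (PP v) := by
  intro w
  have h1 := sub_PP h w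
  have h2 := sq_mix_PP h w
  have h3 : 0 ≤ ∑ j, (w j - mixR (PP v) w j) ^ 2 := by positivity
  unfold mixR at h2
  rw [h2]
  linarith

theorem contr_v (h : ON v) : Contr v := by
  intro w
  have h1 := sub_PP h w
  have h3 : 0 ≤ ∑ j, (w j - mixR (PP v) w j) ^ 2 := by positivity
  linarith

theorem orth_PP (h : ON v) (w : Fin r → ℝ) (e : Fin ω) :
    ∑ j, v e j * (w j - mixR (PP v) w j) = 0 := by
  have h1 : ∑ j, v e j * mixR (PP v) w j = ∑ t, v e t * w t := by
    simp only [mix_PP, mul_sum]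
    rw [sum_comm]
    have h2 : ∀ f, ∑ j, ∑ t, v e j * (v f j * (v f t * w t)) =
        (if e = f then 1 else 0) * ∑ t, v f t * w t := by
      intro f
      rw [← h e f, sum_mul_sum]
      exact sum_congr rfl fun j _ => sum_congr rfl fun t _ => by ring
    simp only [h2]
    simp
  simp only [mul_sub, sum_sub_distrib, h1, sub_self]

theorem sum_PP_sq (h : ON v) : ∑ j, ∑ t, PP v j t ^ 2 = ω := by
  rw [sum_comm]
  have h1 : ∀ t, ∑ j, PP v j t ^ 2 = ∑ e, v e t ^ 2 := by
    intro t
    have h2 := sq_mix_PP h (Pi.single t 1)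
    have h3 : ∀ j, mixR (PP v) (Pi.single t 1) j = PP v j t := by
      intro j
      simp [mixR, Pi.single_apply]
    simp only [h3] at h2
    rw [h2]
    refine sum_congr rfl fun e _ => ?_
    simp [Pi.single_apply]
  simp only [h1]
  rw [sum_comm]
  have h4 : ∀ e, ∑ t, v e t ^ 2 = 1 := by
    intro e
    have := h e e
    rw [if_pos rfl] at this
    rw [← this]
    exact sum_congr rfl fun t _ => by ring
  simp [h4]

/-- the content after projection is small -/
theorem hs_mix_PP_le {ι : Type} [Fintype ι] (h : ON v) (u : ι → Fin r → ℝ) (H : ℝ)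
    (hu : ∀ t, ∑ ν, u ν t ^ 2 ≤ H ^ 2)
    (hd : ∀ t t', t ≠ t' → ∀ ν, u ν t = 0 ∨ u ν t' = 0) :
    hs (fun ν => mixR (PP v) (u ν)) ≤ H ^ 2 * ω := by
  have h1 : ∀ ν j, mixR (PP v) (u ν) j ^ 2 = ∑ t, PP v j t ^ 2 * u ν t ^ 2 := by
    intro ν j
    unfold mixR
    rw [pow_two, sum_mul_sum]
    refine sum_congr rfl fun t _ => ?_
    rw [sum_eq_single t]
    · ring
    · intro t' _ ht'
      rcases hd t t' (Ne.symm ht') ν with h2 | h2 <;> rw [h2] <;> ring
    · intro ht; exact absurd (mem_univ t) ht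
  unfold hs
  simp only [h1]
  calc ∑ ν, ∑ j, ∑ t, PP v j t ^ 2 * u ν t ^ 2
      = ∑ j, ∑ t, PP v j t ^ 2 * ∑ ν, u ν t ^ 2 := by
        rw [sum_comm]
        refine sum_congr rfl fun j _ => ?_
        rw [sum_comm]
        exact sum_congr rfl fun t _ => by rw [mul_sum]
    _ ≤ ∑ j, ∑ t, PP v j t ^ 2 * H ^ 2 :=
        sum_le_sum fun j _ => sum_le_sum fun t _ => mul_le_mul_of_nonneg_left (hu t) (sq_nonneg _)
    _ = H ^ 2 * ω := by
        simp only [← sum_mul]
        rw [sum_PP_sq h, mul_comm]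

end PP

/-- number of nonzero rows -/
theorem rho_mix_sq_le {N r : ℕ} {I : Type} [Fintype I] (u : Fin N → Fin r → ℝ) (q : ℕ)
    (hu : ∀ t, (univ.filter (fun ν => u ν t ≠ 0)).card ≤ q) (A : I → Fin r → ℝ) :
    rho (fun ν => mixR A (u ν)) ^ 2 ≤ (r * q : ℕ) * hs (fun ν => mixR A (u ν)) := by
  classical
  have h1 := rho_sq_le (fun ν => mixR A (u ν)) (univ.biUnion fun t => univ.filter (fun ν => u ν t ≠ 0))
    (by
      intro ν hν e
      have h2 : ∀ t, u ν t = 0 := by
        intro t
        by_contra hne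
        apply hν
        rw [mem_biUnion]
        exact ⟨t, mem_univ t, by simp [hne]⟩
      simp [mixR, h2])
  refine h1.trans (mul_le_mul_of_nonneg_right ?_ (hs_nonneg _))
  have h3 : (univ.biUnion fun t => univ.filter (fun ν => u ν t ≠ 0)).card ≤ r * q := by
    refine card_biUnion_le.trans ((sum_le_sum fun t _ => hu t).trans (le_of_eq ?_))
    simp
  exact_mod_cast h3

/-! ### representations of mixed tuples without lower levels -/

variable {T : Tower}

/-- the noise above level `i` -/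
def yU {J : Type} (i : ℕ) (y : (s : ℕ) → Fin (T.n s) → J → ℝ) (s : ℕ) (b : Fin (T.n s)) (j : J) :
    ℝ := if s ≤ i then 0 else y s b j

/-- the contents above level `i`, with the content of level `i` moved to level `i + 1` -/
def cU {J : Type} (T : Tower) (i : ℕ) (c : ℕ → Fin (2 ^ T.a) → J → ℝ) (s : ℕ) (ν : Fin (2 ^ T.a))
    (j : J) : ℝ := if s ≤ i then 0 else (c s ν j + if s = i + 1 then T.K * c i ν j else 0)

theorem acc_low (c : ℕ → Fin (2 ^ T.a) → ℝ) (s : ℕ) (h : ∀ s' ≤ s, c s' = 0)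
    (ν : Fin (2 ^ T.a)) : T.acc c s ν = 0 := by
  unfold Tower.acc
  refine sum_eq_zero fun s' hs' => ?_
  rw [mem_range] at hs'
  rw [h s' (by omega)]
  simp

theorem acc_at (c : ℕ → Fin (2 ^ T.a) → ℝ) (i : ℕ) (h : ∀ s' < i, c s' = 0)
    (ν : Fin (2 ^ T.a)) : T.acc c i ν = c i ν := by
  unfold Tower.acc
  rw [sum_range_succ, sum_eq_zero]
  · simp
  · intro s' hs'
    rw [mem_range] at hs'
    rw [h s' hs']
    simp

theorem acc_cU {J : Type} (i : ℕ) (c : ℕ → Fin (2 ^ T.a) → J → ℝ) (hc : ∀ s < i, c s = 0) (j : J)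
    (s : ℕ) (hs : i < s) (ν : Fin (2 ^ T.a)) :
    T.acc (fun s ν => cU T i c s ν j) s ν = T.acc (fun s ν => c s ν j) s ν := by
  induction s, (Nat.succ_le_of_lt hs) using Nat.le_induction with
  | base =>
    rw [Nat.succ_eq_add_one, Tower.acc_succ, Tower.acc_succ, acc_low _ i, acc_at _ i]
    · simp [cU]
    · intro s' hs'
      funext ν
      rw [hc s' hs']
      rfl
    · intro s' hs'
      funext ν
      simp [cU, hs']
  | succ m hm ih =>
    rw [Tower.acc_succ, Tower.acc_succ, ih (by omega)]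
    have h1 : ¬ (m + 1 ≤ i) := by omega
    have h2 : ¬ (m + 1 = i + 1) := by omega
    simp only [cU, h1, h2, if_false, add_zero]

section rep

variable {I : Type} [Fintype I] {r : ℕ} {E : Type} [NormedAddCommGroup E] [NormedSpace ℝ E]
  (X : TowerSpace T E)

theorem rep_up {i : ℕ} {z : Fin r → E} {y : (s : ℕ) → Fin (T.n s) → Fin r → ℝ}
    {c : ℕ → Fin (2 ^ T.a) → Fin r → ℝ} (h : X.Rep z y c) (hc : ∀ s < i, c s = 0)
    (A : I → Fin r → ℝ) (hA : ∀ e, ∀ s ≤ i, X.lev s (mixE A z e) = 0) :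
    X.Rep (mixE A z) (fun s b => mixR A (yU i y s b)) (fun s ν => mixR A (cU T i c s ν)) := by
  intro s hs b e
  by_cases hsi : s ≤ i
  · rw [hA e s hsi]
    have h1 : T.acc (fun s ν => mixR A (cU T i c s ν) e) s = 0 := by
      funext ν
      apply acc_low
      intro s' hs'
      funext ν
      have : s' ≤ i := by omega
      simp [mixR, cU, this]
    unfold Tower.ev
    rw [h1]
    simp [mixR, yU, hsi]
  · have h1 := rep_mix X h A s hs b e
    rw [h1]
    have h2 := T.ev_sum (A e) y c s b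
    have h3 := T.ev_sum (A e) (yU i y) (cU T i c) s b
    unfold mixR
    rw [h2, h3]
    refine sum_congr rfl fun j _ => ?_
    congr 1
    unfold Tower.ev
    have h4 : T.acc (fun s ν => cU T i c s ν j) s = T.acc (fun s ν => c s ν j) s := by
      funext ν
      exact acc_cU i c hc j s (by omega) ν
    rw [h4]
    simp [yU, hsi]

theorem mc_up {i : ℕ} (hi : i < T.top) (y : (s : ℕ) → Fin (T.n s) → Fin r → ℝ)
    (c : ℕ → Fin (2 ^ T.a) → Fin r → ℝ) {A : I → Fin r → ℝ} (hA : Contr A) :
    T.mc (fun s b => mixR A (yU i y s b)) (fun s ν => mixR A (cU T i c s ν)) ≤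
      2 * T.mc y (T.above i c) +
        2 * ((T.K : ℝ) ^ 2 * (hs (fun ν => mixR A (c i ν)) +
          rho (fun ν => mixR A (c i ν)) ^ 2 / (T.k (i + 1) : ℝ))) := by
  have h1 : (fun s ν => mixR A (cU T i c s ν)) = fun s ν e =>
      mixR A (T.above i c s ν) e +
        (if s = i + 1 then (T.K : ℝ) * mixR A (c i ν) e else 0) := by
    funext s ν e
    unfold mixR cU Tower.above
    by_cases hs : s ≤ i
    · have : ¬ (s = i + 1) := by omega
      simp [hs, this]
    · by_cases hs1 : s = i + 1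
      · subst hs1
        simp only [hs, if_false, if_true, mul_add, sum_add_distrib, mul_sum]
        congr 1
        exact sum_congr rfl fun j _ => by ring
      · simp [hs, hs1]
  have h2 := mc_add_le (T := T) (fun s b => mixR A (yU i y s b)) (fun _ _ _ => 0)
    (fun s ν => mixR A (T.above i c s ν))
    (fun s ν e => if s = i + 1 then (T.K : ℝ) * mixR A (c i ν) e else 0)
  simp only [add_zero] at h2
  rw [h1]
  refine h2.trans ?_
  have h3 : T.mc (fun s b => mixR A (yU i y s b)) (fun s ν => mixR A (T.above i c s ν)) ≤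
      T.mc y (T.above i c) := by
    refine (mc_mix_le hA (yU i y) (T.above i c)).trans ?_
    rw [mc_eq, mc_eq]
    refine sum_le_sum fun s _ => ?_
    have : hs (yU i y s) ≤ hs (y s) := by
      unfold hs yU
      refine sum_le_sum fun b _ => sum_le_sum fun j _ => ?_
      split_ifs
      · simp; positivity
      · exact le_rfl
    linarith
  have h4 : T.mc (J := I) (fun _ _ _ => 0)
      (fun s ν e => if s = i + 1 then (T.K : ℝ) * mixR A (c i ν) e else 0) =
      (T.K : ℝ) ^ 2 * (hs (fun ν => mixR A (c i ν)) +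
          rho (fun ν => mixR A (c i ν)) ^ 2 / (T.k (i + 1) : ℝ)) := by
    rw [mc_eq, sum_eq_single (i + 1)]
    · have e1 : hs (fun (ν : Fin (2 ^ T.a)) (e : I) =>
          if i + 1 = i + 1 then (T.K : ℝ) * mixR A (c i ν) e else 0) =
          (T.K : ℝ) ^ 2 * hs (fun ν => mixR A (c i ν)) := by
        simp only [if_true, hs, mul_sum, mul_pow]
      have e2 : rho (fun (ν : Fin (2 ^ T.a)) (e : I) =>
          if i + 1 = i + 1 then (T.K : ℝ) * mixR A (c i ν) e else 0) =
          (T.K : ℝ) * rho (fun ν => mixR A (c i ν)) := by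
        simp only [if_true, rho, mul_sum]
        refine sum_congr rfl fun ν _ => ?_
        have : ∑ e, ((T.K : ℝ) * mixR A (c i ν) e) ^ 2 =
            (T.K : ℝ) ^ 2 * ∑ e, mixR A (c i ν) e ^ 2 := by
          simp only [mul_sum, mul_pow]
        rw [this, Real.sqrt_mul (sq_nonneg _), Real.sqrt_sq (Nat.cast_nonneg _)]
      rw [e1, e2]
      simp only [hs]
      simp
      ring
    · intro s _ hs1
      simp [hs, rho, hs1]
    · intro hcon
      rw [mem_range] at hcon
      omega
  rw [h4]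
  linarith

end rep

end Run7.h37.NEG.Clean
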